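import Pool.Agent.J4H98.SB.Len

/-!
Project SB of helper23, job POL: the algorithm runs in polynomial time.
-/

set_option autoImplicit false

namespace Pool.Agent.J4H98.SB

open Finset Pool.Agent.NPC Pool.Agent.H49R2.PC Pool.Agent.J4H63.DB Pool.Agent.J4H23.SB

theorem en_sublist (E : List (ℕ × ℕ)) (t : ℕ) (L : List ℕ) : ∀ s : List ℕ × List ℕ,
    ∀ s' ∈ en E t L s, s'.1.Sublist (L.reverse ++ s.1) ∧ s'.2.Sublist s.2 := by
  induction L with
  | nil =>
    intro s s' hs'
    rw [en_nil, List.mem_singleton] at hs'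
    subst hs'
    exact ⟨by simp, List.Sublist.refl _⟩
  | cons v L ih =>
    intro s s' hs'
    have h0 : (v :: L).reverse ++ s.1 = L.reverse ++ (v :: s.1) := by simp
    rw [h0]
    have h1 : (L.reverse ++ s.1).Sublist (L.reverse ++ (v :: s.1)) :=
      List.Sublist.append_left (List.sublist_cons_self _ _) _
    by_cases h : s.1.length < t
    · rw [en_cons_lt h, List.mem_append] at hs'
      rcases hs' with hs' | hs'
      · have h2 := ih s s' hs'
        exact ⟨h2.1.trans h1, h2.2⟩
      · have h2 := ih _ s' hs'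
        refine ⟨h2.1, h2.2.trans ?_⟩
        exact List.filter_sublist
    · rw [en_cons_not h] at hs'
      have h2 := ih s s' hs'
      exact ⟨h2.1.trans h1, h2.2⟩

theorem sz_enum_le (E : List (ℕ × ℕ)) (t : ℕ) (L R : List ℕ) :
    sz (enum E t L R) ≤ (enum E t L R).length * (sz L + sz R + 2) + 1 := by
  refine sz_le_length_mul (enum E t L R) (sz L + sz R + 1) fun s hs => ?_
  rw [enum_eq] at hs
  obtain ⟨g1, g2⟩ := en_sublist E t L _ s hs
  rw [List.append_nil] at g1
  have e1 := H628R3.RO.sz_le_of_sublist g1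
  rw [sz_reverse] at e1
  have e2 := H628R3.RO.sz_le_of_sublist g2
  rw [show sz s = sz s.1 + sz s.2 + 1 from sz_pair s.1 s.2]
  simp only at e2
  omega

section

variable {α : Type} [TEnc α]

theorem p_bs {E : α → List (ℕ × ℕ)} {t v : α → ℕ} {s : α → List ℕ × List ℕ} (hE : Poly E)
    (ht : Poly t) (hv : Poly v) (hs : Poly s) : Poly (fun a => bs (E a) (t a) (v a) (s a)) := by
  unfold bs
  refine Poly.ite (Poly.decide_lt (Poly.length (Poly.fst hs)) ht) ?_ ?_
  · exact Poly.cons hs (Poly.cons (Poly.pair (Poly.cons hv (Poly.fst hs))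
      (p_nonnbrs hE hv (Poly.snd hs))) (NPC.Poly.const []))
  · exact Poly.cons hs (NPC.Poly.const [])

theorem p_val {E : α → List (ℕ × ℕ)} {t : α → ℕ} {L R : α → List ℕ} (hE : Poly E)
    (ht : Poly t) (hL : Poly L) (hR : Poly R) (W : Polynomial ℕ)
    (hW : ∀ a k, (enum (E a) (t a) ((L a).take k) (R a)).length ≤ W.eval (sz a)) :
    Poly (fun a => val (E a) (t a) (L a) (R a)) := by
  obtain ⟨r1, hr1⟩ := hL.sz_le
  obtain ⟨r2, hr2⟩ := hR.sz_le
  have hstep : Poly (fun p : α × List (List ℕ × List ℕ) × ℕ =>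
      p.2.1.flatMap (bs (E p.1) (t p.1) p.2.2)) := by
    refine Poly.flatMap
      (F := fun (p : α × List (List ℕ × List ℕ) × ℕ) s => bs (E p.1) (t p.1) p.2.2 s)
      (Poly.fst (Poly.snd Poly.id)) ?_
    exact p_bs (hE.comp (Poly.fst (Poly.fst Poly.id))) (ht.comp (Poly.fst (Poly.fst Poly.id)))
      (Poly.snd (Poly.snd (Poly.fst Poly.id))) (Poly.snd Poly.id)
  have hen : Poly (fun a => enum (E a) (t a) (L a) (R a)) := by
    refine Poly.foldl (l := L) (s := fun a => [(([] : List ℕ), R a)])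
      (F := fun a st v => st.flatMap (bs (E a) (t a) v)) hL
      (Poly.cons (Poly.pair (NPC.Poly.const []) hR) (NPC.Poly.const [])) hstep
      (W * (r1 + r2 + Polynomial.C 2) + Polynomial.C 1) ?_
    intro a k _
    have h1 := sz_enum_le (E a) (t a) ((L a).take k) (R a)
    have h2 := NPC.Poly.sz_take_le (L a) k
    have h3 := hW a k
    have h4 := hr1 a
    have h5 := hr2 a
    simp only [Polynomial.eval_add, Polynomial.eval_mul, Polynomial.eval_C]
    exact h1.trans (Nat.add_le_add_right (Nat.mul_le_mul h3 (by omega)) 1)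
  unfold J4H23.SB.val
  refine Poly.sum (NPC.Poly.map
    (F := fun a (s : List ℕ × List ℕ) => 2 ^ s.2.length) hen ?_)
  exact p_two_pow (UPoly.length (Poly.snd (Poly.snd Poly.id)))

theorem p_size {n : α → ℕ} (hn : Poly n) : Poly (fun a => (n a).size) :=
  (Poly.length (Poly.natBits hn)).congr fun a => (Nat.size_eq_bits_len (n a)).symm ▸ rfl

end

theorem two_pow_size_le (N : ℕ) : 2 ^ N.size ≤ 2 * N + 1 := by
  rcases Nat.eq_zero_or_pos N with rfl | h
  · simp
  · obtain ⟨s, hs⟩ : ∃ s, N.size = s + 1 :=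
      ⟨N.size - 1, by have := Nat.size_pos.2 h; omega⟩
    have h7 : 2 ^ s ≤ N := Nat.lt_size.1 (by omega)
    rw [hs, pow_succ]
    omega

theorem pow_tt_le (N : ℕ) (L R : List ℕ) :
    (L.length + R.length + 2) ^ (tt N L R) ≤ (L.length + R.length + 2) * (2 * N + 1) ^ 2 := by
  unfold tt
  set n := L.length + R.length + 2 with hn
  have h1 : 1 < n.size := Nat.lt_size.2 (by omega)
  obtain ⟨d, hd⟩ : ∃ d, n.size = d + 1 := ⟨n.size - 1, by omega⟩
  rw [hd, Nat.add_sub_cancel, pow_succ, mul_comm]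
  refine Nat.mul_le_mul_left _ ?_
  have h2 : n ≤ 2 ^ (d + 1) := by rw [← hd]; exact (Nat.lt_size_self n).le
  have h3 : d * (N.size / d) ≤ N.size := Nat.mul_div_le _ _
  calc n ^ (N.size / d) ≤ (2 ^ (d + 1)) ^ (N.size / d) := Nat.pow_le_pow_left h2 _
    _ = 2 ^ ((d + 1) * (N.size / d)) := by rw [← pow_mul]
    _ ≤ 2 ^ (N.size * 2) := by
        refine Nat.pow_le_pow_right (by norm_num) ?_
        have h4 : (d + 1) * (N.size / d) ≤ (2 * d) * (N.size / d) :=
          Nat.mul_le_mul_right _ (by omega)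
        have h5 : (2 * d) * (N.size / d) = (d * (N.size / d)) * 2 := by ring
        omega
    _ = (2 ^ N.size) ^ 2 := by rw [pow_mul]
    _ ≤ (2 * N + 1) ^ 2 := Nat.pow_le_pow_left (two_pow_size_le N) _

theorem t_POL : S_POL := by
  have hid : Poly (fun x : BGr × List Bool => x) := Poly.id
  have hG : Poly (fun x : BGr × List Bool => x.1) := Poly.fst hid
  have hL : Poly (fun x : BGr × List Bool => x.1.1) := Poly.fst hG
  have hR : Poly (fun x : BGr × List Bool => x.1.2.1) := Poly.fst (Poly.snd hG)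
  have hE : Poly (fun x : BGr × List Bool => x.1.2.2) := Poly.snd (Poly.snd hG)
  have hw : Poly (fun x : BGr × List Bool => x.2) := Poly.snd hid
  have hN : Poly (fun x : BGr × List Bool => x.2.length) := Poly.length hw
  have hNs : Poly (fun x : BGr × List Bool => x.2.length.size) := p_size hN
  have hc : Poly (fun x : BGr × List Bool => decide (x.1.1.length ≤ 8 * x.2.length.size)) :=
    Poly.decide_le (Poly.length hL) (Poly.mul (NPC.Poly.const 8) hNs)
  have ht : Poly (fun x : BGr × List Bool => tt x.2.length x.1.1 x.1.2.1) := by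
    unfold tt
    exact Poly.add (Poly.div hNs (Poly.sub (p_size (Poly.add (Poly.add (Poly.length hL)
      (Poly.length hR)) (NPC.Poly.const 2))) (NPC.Poly.const 1))) (NPC.Poly.const 1)
  obtain ⟨rN, hrN⟩ := H628R3.RO.uPoly_le (UPoly.length hw)
  obtain ⟨rL, hrL⟩ := H628R3.RO.uPoly_le (UPoly.length hL)
  obtain ⟨rR, hrR⟩ := H628R3.RO.uPoly_le (UPoly.length hR)
  have h1 : Poly (fun x : BGr × List Bool => val x.1.2.2
      (if x.1.1.length ≤ 8 * x.2.length.size then x.1.1.length else 0) x.1.1 x.1.2.1) := by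
    refine p_val hE (Poly.ite hc (Poly.length hL) (NPC.Poly.const 0)) hL hR
      ((Polynomial.C 2 * rN + Polynomial.C 1) ^ 8) fun x k => ?_
    simp only [Polynomial.eval_add, Polynomial.eval_mul, Polynomial.eval_C, Polynomial.eval_pow]
    have g1 : (2 * x.2.length + 1) ^ 8 ≤ (2 * rN.eval (sz x) + 1) ^ 8 :=
      Nat.pow_le_pow_left (by have := hrN x; omega) _
    refine le_trans ?_ g1
    split_ifs with h
    · refine (t_LEN _ _ _ _).1.trans ?_
      have g2 : (x.1.1.take k).length ≤ x.2.length.size * 8 := by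
        rw [List.length_take]; omega
      calc 2 ^ (x.1.1.take k).length ≤ 2 ^ (x.2.length.size * 8) :=
            Nat.pow_le_pow_right (by norm_num) g2
        _ = (2 ^ x.2.length.size) ^ 8 := by rw [pow_mul]
        _ ≤ _ := Nat.pow_le_pow_left (two_pow_size_le _) _
    · refine (t_LEN _ _ _ _).2.trans ?_
      rw [pow_zero]
      exact Nat.one_le_pow _ _ (by omega)
  have hb : ∀ x : BGr × List Bool,
      (x.1.1.length + x.1.2.1.length + 2) ^ (tt x.2.length x.1.1 x.1.2.1) ≤
      (rL.eval (sz x) + rR.eval (sz x) + 2) * (2 * rN.eval (sz x) + 1) ^ 2 := fun x => by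
    refine (pow_tt_le _ _ _).trans (Nat.mul_le_mul ?_ (Nat.pow_le_pow_left ?_ _))
    · have := hrL x
      have := hrR x
      omega
    · have := hrN x
      omega
  have h2 : Poly (fun x : BGr × List Bool => val x.1.2.2 (tt x.2.length x.1.1 x.1.2.1)
      x.1.1 x.1.2.1) := by
    refine p_val hE ht hL hR ((rL + rR + Polynomial.C 2) * (Polynomial.C 2 * rN +
      Polynomial.C 1) ^ 2) fun x k => ?_
    simp only [Polynomial.eval_add, Polynomial.eval_mul, Polynomial.eval_C, Polynomial.eval_pow]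
    refine ((t_LEN _ _ _ _).2.trans ?_).trans (hb x)
    refine Nat.pow_le_pow_left ?_ _
    rw [List.length_take]
    omega
  have h3 : Poly (fun x : BGr × List Bool => val (sw x.1.2.2) (tt x.2.length x.1.1 x.1.2.1)
      x.1.2.1 x.1.1) := by
    refine p_val (p_sw hE) ht hR hL ((rL + rR + Polynomial.C 2) * (Polynomial.C 2 * rN +
      Polynomial.C 1) ^ 2) fun x k => ?_
    simp only [Polynomial.eval_add, Polynomial.eval_mul, Polynomial.eval_C, Polynomial.eval_pow]
    refine ((t_LEN _ _ _ _).2.trans ?_).trans (hb x)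
    refine Nat.pow_le_pow_left ?_ _
    rw [List.length_take]
    omega
  refine (Poly.ite hc h1 (Poly.add h2 h3)).congr fun x => ?_
  unfold alg
  by_cases h : x.1.1.length ≤ 8 * x.2.length.size
  · simp only [h, if_true]
  · simp only [h, if_false]

end Pool.Agent.J4H98.SB
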