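import Pool.Agent.J4H98.SB.Len

/-!
Project SB of helper23, job SUM: the recursion counts independent pairs.
-/

set_option autoImplicit false

namespace Pool.Agent.J4H98.SB

open Finset Pool.Agent.NPC Pool.Agent.H49R2.PC Pool.Agent.J4H63.DB Pool.Agent.J4H23.SB

/-- the number of independent pairs, `j` more left vertices have been taken -/
def cj (E : List (ℕ × ℕ)) (t j : ℕ) (A B : Finset ℕ) : ℕ :=
  ((indep E A B).filter (fun p => j + p.1.card ≤ t)).card

theorem cj_insert (E : List (ℕ × ℕ)) (t j : ℕ) {A : Finset ℕ} (B : Finset ℕ) {v : ℕ} (hv : v ∉ A) :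
    cj E t j (insert v A) B = cj E t j A B + cj E t (j + 1) A (B.filter (fun w => (v, w) ∉ E)) := by
  have h1 : (indep E (insert v A) B).filter (fun p => j + p.1.card ≤ t) =
      (indep E A B).filter (fun p => j + p.1.card ≤ t) ∪
      ((indep E A (B.filter (fun w => (v, w) ∉ E))).filter (fun p => j + 1 + p.1.card ≤ t)).image
        (fun p => (insert v p.1, p.2)) := by
    ext p
    rw [Finset.mem_union, Finset.mem_image, Finset.mem_filter, Finset.mem_filter, mem_indep,
      mem_indep]
    constructor
    · rintro ⟨⟨h1, h2, h3⟩, h4⟩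
      by_cases hvp : v ∈ p.1
      · right
        refine ⟨(p.1.erase v, p.2), ?_, ?_⟩
        · rw [Finset.mem_filter, mem_indep]
          refine ⟨⟨?_, ?_, ?_⟩, ?_⟩
          · intro u hu
            rw [Finset.mem_erase] at hu
            have := h1 hu.2
            rw [Finset.mem_insert] at this
            exact this.resolve_left hu.1
          · intro w hw
            rw [Finset.mem_filter]
            exact ⟨h2 hw, h3 v hvp w hw⟩
          · intro u hu w hw
            rw [Finset.mem_erase] at hu
            exact h3 u hu.2 w hw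
          · have h5 := Finset.card_erase_add_one hvp
            simp only
            omega
        · rw [Finset.insert_erase hvp]
      · left
        refine ⟨⟨?_, h2, h3⟩, h4⟩
        intro u hu
        have := h1 hu
        rw [Finset.mem_insert] at this
        refine this.resolve_left ?_
        rintro rfl
        exact hvp hu
    · rintro (⟨⟨h1, h2, h3⟩, h4⟩ | ⟨q, hq, rfl⟩)
      · exact ⟨⟨h1.trans (Finset.subset_insert _ _), h2, h3⟩, h4⟩
      · rw [Finset.mem_filter, mem_indep] at hq
        obtain ⟨⟨h1, h2, h3⟩, h4⟩ := hq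
        refine ⟨⟨Finset.insert_subset_insert _ h1, fun w hw => (Finset.mem_filter.1 (h2 hw)).1, ?_⟩, ?_⟩
        · intro u hu w hw
          rw [Finset.mem_insert] at hu
          rcases hu with rfl | hu
          · exact (Finset.mem_filter.1 (h2 hw)).2
          · exact h3 u hu w hw
        · have h5 := Finset.card_insert_le v q.1
          simp only
          omega
  rw [cj, h1, Finset.card_union_of_disjoint, Finset.card_image_of_injOn]
  · rfl
  · intro p hp q hq h
    rw [Finset.mem_coe, Finset.mem_filter, mem_indep] at hp hq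
    simp only [Prod.mk.injEq] at h
    have hp' : v ∉ p.1 := fun h' => hv (hp.1.1 h')
    have hq' : v ∉ q.1 := fun h' => hv (hq.1.1 h')
    refine Prod.ext ?_ h.2
    rw [← Finset.erase_insert hp', h.1, Finset.erase_insert hq']
  · rw [Finset.disjoint_left]
    intro p hp hp2
    rw [Finset.mem_filter, mem_indep] at hp
    rw [Finset.mem_image] at hp2
    obtain ⟨q, _, rfl⟩ := hp2
    exact hv (hp.1.1 (Finset.mem_insert_self _ _))

theorem cj_zero {E : List (ℕ × ℕ)} {t j : ℕ} (h : t < j) (A B : Finset ℕ) : cj E t j A B = 0 := by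
  unfold cj
  rw [Finset.card_eq_zero, Finset.filter_eq_empty_iff]
  intro p _
  omega

theorem cj_empty {E : List (ℕ × ℕ)} {t j : ℕ} (h : j ≤ t) (B : Finset ℕ) :
    cj E t j ∅ B = 2 ^ B.card := by
  have h1 : (indep E ∅ B).filter (fun p => j + p.1.card ≤ t) = indep E ∅ B := by
    refine Finset.filter_true_of_mem fun p hp => ?_
    rw [mem_indep] at hp
    rw [Finset.subset_empty.1 hp.1, Finset.card_empty]
    omega
  have h2 := cnt_of_no_edge E ∅ B (by simp)
  rw [Finset.card_empty, zero_add] at h2
  rw [cj, h1]
  exact h2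

theorem toFinset_nonnbrs (E : List (ℕ × ℕ)) (v : ℕ) (B : List ℕ) :
    (nonnbrs E v B).toFinset = B.toFinset.filter (fun w => (v, w) ∉ E) := by
  ext w
  unfold nonnbrs
  simp

theorem sum_en (E : List (ℕ × ℕ)) (t : ℕ) (L : List ℕ) : L.Nodup → ∀ s : List ℕ × List ℕ,
    s.2.Nodup → s.1.length ≤ t →
    ((en E t L s).map (fun s => 2 ^ s.2.length)).sum = cj E t s.1.length L.toFinset s.2.toFinset := by
  induction L with
  | nil =>
    intro _ s hs h
    rw [en_nil, List.toFinset_nil, cj_empty h, List.toFinset_card_of_nodup hs]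
    simp
  | cons v L ih =>
    intro hL s hs h
    rw [List.nodup_cons] at hL
    have hv : v ∉ L.toFinset := by rw [List.mem_toFinset]; exact hL.1
    rw [List.toFinset_cons, cj_insert E t _ _ hv, ← toFinset_nonnbrs]
    by_cases h1 : s.1.length < t
    · rw [en_cons_lt h1, List.map_append, List.sum_append, ih hL.2 s hs h,
        ih hL.2 (v :: s.1, nonnbrs E v s.2) (hs.filter _) (by simpa using h1)]
      rfl
    · rw [en_cons_not h1, ih hL.2 s hs h, cj_zero (j := s.1.length + 1) (by omega), add_zero]

theorem t_SUM : S_SUM := by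
  intro E t L R hL hR
  have h := sum_en E t L hL ([], R) hR (Nat.zero_le _)
  unfold J4H23.SB.val
  rw [enum_eq, h]
  unfold cj
  simp only [List.length_nil, Nat.zero_add]

end Pool.Agent.J4H98.SB
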