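import Pool.Agent.J4H23.SB.Stm

/-!
Project SB of helper23, job LEN: the number of the states.
-/

set_option autoImplicit false

namespace Pool.Agent.J4H98.SB

open Finset Pool.Agent.NPC Pool.Agent.H49R2.PC Pool.Agent.J4H63.DB Pool.Agent.J4H23.SB

/-- the states reached from `s` -/
def en (E : List (ℕ × ℕ)) (t : ℕ) (L : List ℕ) (s : List ℕ × List ℕ) : List (List ℕ × List ℕ) :=
  L.foldl (fun st v => st.flatMap (bs E t v)) [s]

theorem foldl_flat (E : List (ℕ × ℕ)) (t : ℕ) (L : List ℕ) : ∀ st : List (List ℕ × List ℕ),
    L.foldl (fun st v => st.flatMap (bs E t v)) st = st.flatMap (en E t L) := by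
  induction L with
  | nil =>
    intro st
    simp only [List.foldl_nil, en]
    induction st with
    | nil => rfl
    | cons a st ih => rw [List.flatMap_cons, ← ih]; rfl
  | cons v L ih =>
    intro st
    rw [List.foldl_cons, ih, List.flatMap_assoc]
    congr 1
    funext s
    unfold en
    rw [List.foldl_cons, ih]
    simp only [List.flatMap_cons, List.flatMap_nil, List.append_nil]
    rfl

theorem en_nil (E : List (ℕ × ℕ)) (t : ℕ) (s : List ℕ × List ℕ) : en E t [] s = [s] := rfl

theorem en_cons (E : List (ℕ × ℕ)) (t v : ℕ) (L : List ℕ) (s : List ℕ × List ℕ) :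
    en E t (v :: L) s = (bs E t v s).flatMap (en E t L) := by
  unfold en
  rw [List.foldl_cons, foldl_flat]
  simp only [List.flatMap_cons, List.flatMap_nil, List.append_nil]
  rfl

theorem en_cons_lt {E : List (ℕ × ℕ)} {t v : ℕ} {L : List ℕ} {s : List ℕ × List ℕ}
    (h : s.1.length < t) :
    en E t (v :: L) s = en E t L s ++ en E t L (v :: s.1, nonnbrs E v s.2) := by
  rw [en_cons]
  unfold bs
  rw [if_pos h]
  simp only [List.flatMap_cons, List.flatMap_nil, List.append_nil]

theorem en_cons_not {E : List (ℕ × ℕ)} {t v : ℕ} {L : List ℕ} {s : List ℕ × List ℕ}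
    (h : ¬ s.1.length < t) : en E t (v :: L) s = en E t L s := by
  rw [en_cons]
  unfold bs
  rw [if_neg h]
  simp only [List.flatMap_cons, List.flatMap_nil, List.append_nil]

theorem length_en_le (E : List (ℕ × ℕ)) (t : ℕ) (L : List ℕ) : ∀ s : List ℕ × List ℕ,
    (en E t L s).length ≤ 2 ^ L.length := by
  induction L with
  | nil => intro s; simp [en_nil]
  | cons v L ih =>
    intro s
    rw [List.length_cons, pow_succ]
    by_cases h : s.1.length < t
    · rw [en_cons_lt h, List.length_append]
      have h1 := ih s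
      have h2 := ih (v :: s.1, nonnbrs E v s.2)
      omega
    · rw [en_cons_not h]
      have h1 := ih s
      omega

theorem length_en_le' (E : List (ℕ × ℕ)) (t : ℕ) (L : List ℕ) : ∀ s : List ℕ × List ℕ,
    (en E t L s).length ≤ (L.length + 1) ^ (t - s.1.length) := by
  induction L with
  | nil => intro s; simp [en_nil]
  | cons v L ih =>
    intro s
    rw [List.length_cons]
    by_cases h : s.1.length < t
    · rw [en_cons_lt h, List.length_append]
      have h1 := ih s
      have h2 := ih (v :: s.1, nonnbrs E v s.2)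
      simp only [List.length_cons] at h2
      obtain ⟨k, hk⟩ : ∃ k, t - s.1.length = k + 1 := ⟨t - s.1.length - 1, by omega⟩
      have hk' : t - (s.1.length + 1) = k := by omega
      rw [hk] at h1 ⊢
      rw [hk'] at h2
      have h3 : (L.length + 1) ^ k ≤ (L.length + 1 + 1) ^ k :=
        Nat.pow_le_pow_left (by omega) k
      have h4 : (L.length + 1) ^ (k + 1) ≤ (L.length + 1) * (L.length + 1 + 1) ^ k := by
        rw [pow_succ, mul_comm]
        exact Nat.mul_le_mul_left _ h3
      calc (en E t L s).length + (en E t L (v :: s.1, nonnbrs E v s.2)).length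
          ≤ (L.length + 1) * (L.length + 1 + 1) ^ k + (L.length + 1 + 1) ^ k :=
            Nat.add_le_add (h1.trans h4) (h2.trans h3)
        _ = (L.length + 1 + 1) ^ (k + 1) := by rw [pow_succ]; ring
    · rw [en_cons_not h]
      exact (ih s).trans (Nat.pow_le_pow_left (by omega) _)

theorem enum_eq (E : List (ℕ × ℕ)) (t : ℕ) (L R : List ℕ) : enum E t L R = en E t L ([], R) := rfl

theorem t_LEN : S_LEN := by
  intro E t L R
  rw [enum_eq]
  exact ⟨length_en_le E t L _, by simpa using length_en_le' E t L ([], R)⟩

end Pool.Agent.J4H98.SB
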